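import Mathlib

set_option autoImplicit false

/-!
# A prime smoothly hard front of the Legendrian unknot with maximal tb

A generic front is described by the list of its singularities, from left to right; at each of them
we record the number of strands (branches over the same `x`) which lie below it. The crossings carry
no further information, since the strand with the more negative slope passes over.

We give a front `F` with 12 crossings, of writhe 4, and 5 right cusps. It is Legendrian isotopic to
the front with two cusps, i.e. it is a front of the max-tb unknot. Its smooth resolution is a prime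
diagram, and no Reidemeister move which removes crossings or keeps their number can be applied to it,
even on the sphere.
-/

namespace Pool.Agent.Results.MP_0e30b3_gt.PrimeHardFront

/-! ## Fronts -/

/-- The singularities of a generic front: left cusps, crossings and right cusps. -/
inductive Kind
  | left | cross | right
  deriving DecidableEq

/-- A singularity of a front. The strands over a value of `x` are numbered `0, 1, 2, ...` from bottom
to top. `⟨left, i⟩` is a left cusp, whose two branches become the strands `i` and `i + 1`;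
`⟨cross, i⟩` is a crossing of the strands `i` and `i + 1`; `⟨right, i⟩` is a right cusp, where the
strands `i` and `i + 1` end. -/
structure Event where
  kind : Kind
  pos : ℕ
  deriving DecidableEq

open Kind

/-- The number of strands on the right of the singularities `F`, if there are `n` on the left
(`none`, if `F` is impossible). -/
def strands : ℕ → List Event → Option ℕ
  | n, [] => some n
  | n, ⟨left, i⟩ :: F => if i ≤ n then strands (n + 2) F else none
  | n, ⟨cross, i⟩ :: F => if i + 2 ≤ n then strands n F else none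
  | n, ⟨right, i⟩ :: F => if i + 2 ≤ n then strands (n - 2) F else none

/-- The list describes a front of a closed Legendrian curve. -/
def IsFront (F : List Event) : Prop := strands 0 F = some 0

/-- Elementary isotopies of fronts: planar isotopies, which change the order of two singularities
(`e` below `f`), and the Legendrian Reidemeister moves. -/
inductive Move : List Event → List Event → Prop
  /-- the lower one of the two singularities is a left cusp -/
  | swapLeft (A B : List Event) (k : Kind) (i j : ℕ) (h : i ≤ j) :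
      Move (A ++ ⟨left, i⟩ :: ⟨k, j + 2⟩ :: B) (A ++ ⟨k, j⟩ :: ⟨left, i⟩ :: B)
  /-- the lower one is a crossing -/
  | swapCross (A B : List Event) (k : Kind) (i j : ℕ) (h : i + 2 ≤ j) :
      Move (A ++ ⟨cross, i⟩ :: ⟨k, j⟩ :: B) (A ++ ⟨k, j⟩ :: ⟨cross, i⟩ :: B)
  /-- the lower one is a right cusp -/
  | swapRight (A B : List Event) (k : Kind) (i j : ℕ) (h : i ≤ j) :
      Move (A ++ ⟨right, i⟩ :: ⟨k, j⟩ :: B) (A ++ ⟨k, j + 2⟩ :: ⟨right, i⟩ :: B)
  /-- type I: a zigzag with one crossing on the strand `i` is removed -/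
  | oneUp (A B : List Event) (i : ℕ) :
      Move (A ++ ⟨left, i + 1⟩ :: ⟨cross, i⟩ :: ⟨right, i + 1⟩ :: B) (A ++ B)
  | oneDown (A B : List Event) (i : ℕ) :
      Move (A ++ ⟨left, i⟩ :: ⟨cross, i + 1⟩ :: ⟨right, i⟩ :: B) (A ++ B)
  /-- type II: a strand above (or below) a left cusp, crossing both its branches, is moved over it -/
  | twoLeftUp (A B : List Event) (i : ℕ) :
      Move (A ++ ⟨left, i⟩ :: ⟨cross, i + 1⟩ :: ⟨cross, i⟩ :: B) (A ++ ⟨left, i + 1⟩ :: B)
  | twoLeftDown (A B : List Event) (i : ℕ) :
      Move (A ++ ⟨left, i + 1⟩ :: ⟨cross, i⟩ :: ⟨cross, i + 1⟩ :: B) (A ++ ⟨left, i⟩ :: B)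
  /-- type II at a right cusp -/
  | twoRightUp (A B : List Event) (i : ℕ) :
      Move (A ++ ⟨cross, i⟩ :: ⟨cross, i + 1⟩ :: ⟨right, i⟩ :: B) (A ++ ⟨right, i + 1⟩ :: B)
  | twoRightDown (A B : List Event) (i : ℕ) :
      Move (A ++ ⟨cross, i + 1⟩ :: ⟨cross, i⟩ :: ⟨right, i + 1⟩ :: B) (A ++ ⟨right, i⟩ :: B)
  /-- type III -/
  | three (A B : List Event) (i : ℕ) :
      Move (A ++ ⟨cross, i⟩ :: ⟨cross, i + 1⟩ :: ⟨cross, i⟩ :: B)
        (A ++ ⟨cross, i + 1⟩ :: ⟨cross, i⟩ :: ⟨cross, i + 1⟩ :: B)

/-- The two fronts are fronts of Legendrian isotopic curves. -/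
def LegendrianIsotopic : List Event → List Event → Prop :=
  Relation.EqvGen fun F G => IsFront F ∧ IsFront G ∧ Move F G

/-- The front with one left and one right cusp and no crossing. -/
def lens : List Event := [⟨left, 0⟩, ⟨right, 0⟩]

/-- `F` is a front of the Legendrian unknot with `tb = -1`, which has the front `lens`. -/
def MaxTbUnknot (F : List Event) : Prop := IsFront F ∧ LegendrianIsotopic F lens

/-! ## The smooth resolution -/

/-- A place on the front: on the strand number `height` immediately behind the first `time`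
singularities, moving to the right (`east = true`) or to the left. -/
structure Place where
  time : ℕ
  height : ℕ
  east : Bool
  deriving DecidableEq

/-- how the strands are permuted at a crossing of the strands `i` and `i + 1` -/
def swap (i h : ℕ) : ℕ := if h = i then i + 1 else if h = i + 1 then i else h

/-- Follow the curve to the next place. At a left cusp (for `east = false`) or a right cusp (for
`east = true`) with the branches `i`, `i + 1` we change to the other branch and turn round. -/
def next (F : List Event) (p : Place) : Place :=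
  if p.east then
    match F[p.time]? with
    | some ⟨left, i⟩ => ⟨p.time + 1, if p.height < i then p.height else p.height + 2, true⟩
    | some ⟨cross, i⟩ => ⟨p.time + 1, swap i p.height, true⟩
    | some ⟨right, i⟩ =>
      if p.height < i then ⟨p.time + 1, p.height, true⟩
      else if i + 1 < p.height then ⟨p.time + 1, p.height - 2, true⟩
      else ⟨p.time, swap i p.height, false⟩
    | none => p
  else
    match F[p.time - 1]? with
    | some ⟨right, i⟩ => ⟨p.time - 1, if p.height < i then p.height else p.height + 2, false⟩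
    | some ⟨cross, i⟩ => ⟨p.time - 1, swap i p.height, false⟩
    | some ⟨left, i⟩ =>
      if p.height < i then ⟨p.time - 1, p.height, false⟩
      else if i + 1 < p.height then ⟨p.time - 1, p.height - 2, false⟩
      else ⟨p.time, swap i p.height, true⟩
    | none => p

/-- We start on the lower branch of the leftmost cusp, moving to the right. -/
def start : Place := ⟨1, 0, true⟩

/-- The places met on the way from `p` until we come back to `start` (at most `fuel` places). -/
def loop (F : List Event) : ℕ → Place → List Place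
  | 0, _ => []
  | fuel + 1, p => p :: if next F p = start then [] else loop F fuel (next F p)

/-- If there is a crossing between the place `p` and the next one on the curve: its number in the
list `F`, whether we pass over it (i.e. have negative slope), and whether we move to the right. -/
def passage (F : List Event) (p : Place) : Option (ℕ × Bool × Bool) :=
  let k := if p.east then p.time else p.time - 1
  match F[k]? with
  | some ⟨cross, i⟩ =>
    if p.height = i then some (k, !p.east, p.east)
    else if p.height = i + 1 then some (k, p.east, p.east)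
    else none
  | _ => none

/-- A passage of an oriented knot diagram through a crossing. -/
structure Pass where
  /-- the name of the crossing -/
  crossing : ℕ
  /-- over-passage or under-passage -/
  isOver : Bool
  /-- whether the crossing is positive -/
  isPos : Bool
  deriving DecidableEq

/-- The smooth resolution of the front `F` of a knot, described by its signed Gauss code, i.e. the
list of the passages through crossings met when running along the knot. A crossing is positive if
both passages have the same horizontal direction. (`4 * (F.length + 1) ^ 2` is larger than the number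
of places.) -/
def resolution (F : List Event) : List Pass :=
  let l := (loop F (4 * (F.length + 1) ^ 2) start).filterMap (passage F)
  l.map fun q => ⟨q.1, q.2.1, l.all fun r => r.1 != q.1 || r.2.2 == q.2.2⟩

/-! ## Knot diagrams on the sphere

A knot diagram on the sphere is given by its signed Gauss code, up to isotopy of the sphere. The
crossing number of the diagram is half the length of the code. -/

/-- The other passage through the same crossing. -/
def Pass.mate (p : Pass) : Pass := ⟨p.crossing, !p.isOver, p.isPos⟩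

/-- The same passage, if the crossings get other names. -/
def Pass.rename (f : ℕ → ℕ) (p : Pass) : Pass := ⟨f p.crossing, p.isOver, p.isPos⟩

/-- The same diagram, with another starting point and other names of the crossings. -/
def Same (D E : List Pass) : Prop :=
  ∃ f : ℕ → ℕ, (∀ p ∈ D, ∀ q ∈ D, f p.crossing = f q.crossing → p.crossing = q.crossing) ∧
    D.map (Pass.rename f) ~r E

/-- `t`, `m`, `b` are the pairs of passages of the top, middle and bottom strand through the vertices
of a triangle of the diagram. -/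
inductive Triangle : Pass × Pass → Pass × Pass → Pass × Pass → Prop
  | mk (x y z : Pass) (hx : x.isOver = true) (hy : y.isOver = true) (hz : z.isOver = true)
      (t m b : Pass × Pass) (ht : t = (x, y) ∨ t = (y, x)) (hm : m = (x.mate, z) ∨ m = (z, x.mate))
      (hb : b = (y.mate, z.mate) ∨ b = (z.mate, y.mate)) : Triangle t m b

/-- The Reidemeister moves on Gauss codes which decrease the number of crossings (types I and II) or
keep it (type III). Here they may be applied even if the monogon, bigon or triangle is not a face of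
the diagram, and regardless of the signs of the crossings in the types II and III: this allows more
than the Reidemeister moves on the sphere. -/
inductive Reid : List Pass → List Pass → Prop
  /-- type I -/
  | one (A B : List Pass) (p : Pass) : Reid (A ++ [p, p.mate] ++ B) (A ++ B)
  /-- type II: one strand passes over both crossings -/
  | twoSame (A B C : List Pass) (p q : Pass) (ho : p.isOver = q.isOver) :
      Reid (A ++ [p, q] ++ B ++ [p.mate, q.mate] ++ C) (A ++ B ++ C)
  | twoOpp (A B C : List Pass) (p q : Pass) (ho : p.isOver = q.isOver) :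
      Reid (A ++ [p, q] ++ B ++ [q.mate, p.mate] ++ C) (A ++ B ++ C)
  /-- type III -/
  | three (A B C E : List Pass) (X Y Z t m b : Pass × Pass) (hT : Triangle t m b)
      (hP : List.Perm [X, Y, Z] [t, m, b]) :
      Reid (A ++ [X.1, X.2] ++ B ++ [Y.1, Y.2] ++ C ++ [Z.1, Z.2] ++ E)
        (A ++ [X.2, X.1] ++ B ++ [Y.2, Y.1] ++ C ++ [Z.2, Z.1] ++ E)

/-- One Reidemeister move, in either direction, and isotopies of the sphere. -/
def RMove (D E : List Pass) : Prop :=
  ∃ D' E', Same D D' ∧ Same E' E ∧ (Reid D' E' ∨ Reid E' D')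

/-- The diagram `D` is strongly hard on the sphere: each sequence of Reidemeister moves from `D` to the
diagram without crossings contains a diagram with more crossings than `D`. -/
def StronglyHard (D : List Pass) : Prop :=
  ∀ (n : ℕ) (s : ℕ → List Pass), s 0 = D → (∀ i < n, RMove (s i) (s (i + 1))) → s n = [] →
    ∃ i ≤ n, D.length < (s i).length

/-- The diagram is composite: a circle which meets it in two points, and has crossings inside and
outside, cuts the knot into two arcs `x` and `y`, such that each crossing is met twice by one of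
them. -/
def Composite (D : List Pass) : Prop :=
  ∃ x y : List Pass, D ~r x ++ y ∧ x ≠ [] ∧ y ≠ [] ∧ ∀ p ∈ x, p.mate ∈ x

/-! ## The front -/

/-- The front. -/
def front : List Event :=
  [⟨left, 0⟩, ⟨left, 2⟩, ⟨cross, 1⟩, ⟨left, 0⟩, ⟨cross, 1⟩, ⟨left, 2⟩, ⟨cross, 1⟩, ⟨cross, 3⟩,
    ⟨right, 2⟩, ⟨cross, 2⟩, ⟨cross, 1⟩, ⟨cross, 1⟩, ⟨cross, 0⟩, ⟨left, 2⟩, ⟨cross, 1⟩, ⟨cross, 3⟩,
    ⟨right, 2⟩, ⟨cross, 1⟩, ⟨right, 2⟩, ⟨cross, 1⟩, ⟨right, 0⟩, ⟨right, 0⟩]

/-- Its resolution. -/
def diagram : List Pass :=
  [⟨4, true, false⟩, ⟨6, false, true⟩, ⟨7, true, true⟩, ⟨4, false, false⟩, ⟨12, false, true⟩,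
    ⟨14, false, true⟩, ⟨15, true, true⟩, ⟨11, false, false⟩, ⟨10, true, false⟩, ⟨9, true, true⟩,
    ⟨2, true, true⟩, ⟨19, false, true⟩, ⟨17, true, false⟩, ⟨15, false, true⟩, ⟨14, true, true⟩,
    ⟨17, false, false⟩, ⟨9, false, true⟩, ⟨7, false, true⟩, ⟨6, true, true⟩, ⟨10, false, false⟩,
    ⟨11, true, false⟩, ⟨12, true, true⟩, ⟨19, true, true⟩, ⟨2, false, true⟩]

theorem resolution_front : resolution front = diagram := by decide +kernel

/-! ### The Legendrian isotopy -/

/-- The move number `t` at the beginning of the list. -/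
def act0 : ℕ → List Event → Option (List Event)
  | 0, ⟨left, i⟩ :: ⟨k, j + 2⟩ :: B => if i ≤ j then some (⟨k, j⟩ :: ⟨left, i⟩ :: B) else none
  | 0, ⟨cross, i⟩ :: ⟨k, j⟩ :: B => if i + 2 ≤ j then some (⟨k, j⟩ :: ⟨cross, i⟩ :: B) else none
  | 0, ⟨right, i⟩ :: ⟨k, j⟩ :: B => if i ≤ j then some (⟨k, j + 2⟩ :: ⟨right, i⟩ :: B) else none
  | 1, ⟨k, j⟩ :: ⟨left, i⟩ :: B => if i ≤ j then some (⟨left, i⟩ :: ⟨k, j + 2⟩ :: B) else none
  | 1, ⟨k, j⟩ :: ⟨cross, i⟩ :: B => if i + 2 ≤ j then some (⟨cross, i⟩ :: ⟨k, j⟩ :: B) else none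
  | 1, ⟨k, j + 2⟩ :: ⟨right, i⟩ :: B => if i ≤ j then some (⟨right, i⟩ :: ⟨k, j⟩ :: B) else none
  | 2, ⟨left, i⟩ :: ⟨cross, j⟩ :: ⟨right, k⟩ :: B =>
    if i = j + 1 ∧ k = j + 1 then some B else none
  | 3, ⟨left, i⟩ :: ⟨cross, j⟩ :: ⟨right, k⟩ :: B =>
    if j = i + 1 ∧ k = i then some B else none
  | 4, ⟨left, i⟩ :: ⟨cross, j⟩ :: ⟨cross, k⟩ :: B =>
    if j = i + 1 ∧ k = i then some (⟨left, i + 1⟩ :: B) else none
  | 5, ⟨left, j⟩ :: ⟨cross, i⟩ :: ⟨cross, k⟩ :: B =>
    if j = i + 1 ∧ k = i + 1 then some (⟨left, i⟩ :: B) else none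
  | 6, ⟨cross, i⟩ :: ⟨cross, j⟩ :: ⟨right, k⟩ :: B =>
    if j = i + 1 ∧ k = i then some (⟨right, i + 1⟩ :: B) else none
  | 7, ⟨cross, j⟩ :: ⟨cross, i⟩ :: ⟨right, k⟩ :: B =>
    if j = i + 1 ∧ k = i + 1 then some (⟨right, i⟩ :: B) else none
  | 8, ⟨cross, i⟩ :: ⟨cross, j⟩ :: ⟨cross, k⟩ :: B =>
    if j = i + 1 ∧ k = i then some (⟨cross, i + 1⟩ :: ⟨cross, i⟩ :: ⟨cross, i + 1⟩ :: B) else none
  | 9, ⟨cross, j⟩ :: ⟨cross, i⟩ :: ⟨cross, k⟩ :: B =>
    if j = i + 1 ∧ k = i + 1 then some (⟨cross, i⟩ :: ⟨cross, i + 1⟩ :: ⟨cross, i⟩ :: B) else none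
  | 10, ⟨left, i + 1⟩ :: B => some (⟨left, i⟩ :: ⟨cross, i + 1⟩ :: ⟨cross, i⟩ :: B)
  | 11, ⟨left, i⟩ :: B => some (⟨left, i + 1⟩ :: ⟨cross, i⟩ :: ⟨cross, i + 1⟩ :: B)
  | 12, ⟨right, i + 1⟩ :: B => some (⟨cross, i⟩ :: ⟨cross, i + 1⟩ :: ⟨right, i⟩ :: B)
  | 13, ⟨right, i⟩ :: B => some (⟨cross, i + 1⟩ :: ⟨cross, i⟩ :: ⟨right, i + 1⟩ :: B)
  | _, _ => none

/-- The move number `t` after the first `k` singularities. -/
def act (t : ℕ) : ℕ → List Event → Option (List Event)
  | 0, F => act0 t F
  | _ + 1, [] => none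
  | k + 1, e :: F => (act t k F).map (e :: ·)

def IsMove (F G : List Event) : Prop := Move F G ∨ Move G F

theorem act0_sound (t : ℕ) (F G : List Event) (h : act0 t F = some G) (A : List Event) :
    IsMove (A ++ F) (A ++ G) := by
  unfold act0 at h
  split at h
  · split at h
    · rename_i hij
      cases h
      exact Or.inl (.swapLeft A _ _ _ _ hij)
    · cases h
  · split at h
    · rename_i hij
      cases h
      exact Or.inl (.swapCross A _ _ _ _ hij)
    · cases h
  · split at h
    · rename_i hij
      cases h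
      exact Or.inl (.swapRight A _ _ _ _ hij)
    · cases h
  · split at h
    · rename_i hij
      cases h
      exact Or.inr (.swapLeft A _ _ _ _ hij)
    · cases h
  · split at h
    · rename_i hij
      cases h
      exact Or.inr (.swapCross A _ _ _ _ hij)
    · cases h
  · split at h
    · rename_i hij
      cases h
      exact Or.inr (.swapRight A _ _ _ _ hij)
    · cases h
  · split at h
    · rename_i hij
      obtain ⟨rfl, rfl⟩ := hij
      cases h
      exact Or.inl (.oneUp A _ _)
    · cases h
  · split at h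
    · rename_i hij
      obtain ⟨rfl, rfl⟩ := hij
      cases h
      exact Or.inl (.oneDown A _ _)
    · cases h
  · split at h
    · rename_i hij
      obtain ⟨rfl, rfl⟩ := hij
      cases h
      exact Or.inl (.twoLeftUp A _ _)
    · cases h
  · split at h
    · rename_i hij
      obtain ⟨rfl, rfl⟩ := hij
      cases h
      exact Or.inl (.twoLeftDown A _ _)
    · cases h
  · split at h
    · rename_i hij
      obtain ⟨rfl, rfl⟩ := hij
      cases h
      exact Or.inl (.twoRightUp A _ _)
    · cases h
  · split at h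
    · rename_i hij
      obtain ⟨rfl, rfl⟩ := hij
      cases h
      exact Or.inl (.twoRightDown A _ _)
    · cases h
  · split at h
    · rename_i hij
      obtain ⟨rfl, rfl⟩ := hij
      cases h
      exact Or.inl (.three A _ _)
    · cases h
  · split at h
    · rename_i hij
      obtain ⟨rfl, rfl⟩ := hij
      cases h
      exact Or.inr (.three A _ _)
    · cases h
  · cases h
    exact Or.inr (.twoLeftUp A _ _)
  · cases h
    exact Or.inr (.twoLeftDown A _ _)
  · cases h
    exact Or.inr (.twoRightUp A _ _)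
  · cases h
    exact Or.inr (.twoRightDown A _ _)
  · cases h

theorem act_sound (t k : ℕ) (F G : List Event) (h : act t k F = some G) (A : List Event) :
    IsMove (A ++ F) (A ++ G) := by
  induction k generalizing F G A with
  | zero =>
    rw [act] at h
    exact act0_sound t F G h A
  | succ k ih =>
    cases F with
    | nil =>
      rw [act] at h
      cases h
    | cons e F =>
      rw [act, Option.map_eq_some_iff] at h
      obtain ⟨G', hG', rfl⟩ := h
      have := ih F G' hG' (A ++ [e])
      rwa [List.append_assoc, List.append_assoc] at this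

/-- Perform the moves, checking that all lists are fronts. -/
def run : List (ℕ × ℕ) → List Event → Option (List Event)
  | [], F => some F
  | (k, t) :: c, F =>
    match act t k F with
    | some G => if strands 0 G = some 0 then run c G else none
    | none => none

theorem run_sound (c : List (ℕ × ℕ)) (F G : List Event) (hF : IsFront F)
    (h : run c F = some G) : LegendrianIsotopic F G := by
  induction c generalizing F with
  | nil =>
    rw [run] at h
    cases h
    exact Relation.EqvGen.refl _
  | cons x c ih =>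
    obtain ⟨k, t⟩ := x
    rw [run] at h
    cases h1 : act t k F with
    | none =>
      rw [h1] at h
      cases h
    | some H =>
      rw [h1] at h
      dsimp only at h
      by_cases hH : strands 0 H = some 0
      · rw [if_pos hH] at h
        have h2 := act_sound t k F H h1 []
        rw [List.nil_append, List.nil_append] at h2
        refine Relation.EqvGen.trans _ _ _ ?_ (ih H hH h)
        rcases h2 with h2 | h2
        · exact Relation.EqvGen.rel _ _ ⟨hF, hH, h2⟩
        · exact Relation.EqvGen.symm _ _ (Relation.EqvGen.rel _ _ ⟨hH, hF, h2⟩)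
      · rw [if_neg hH] at h
        cases h

/-- The isotopy. -/
def moves : List (ℕ × ℕ) :=
  [(2, 1), (1, 1), (0, 1), (3, 1), (2, 1), (4, 1), (3, 1), (6, 0), (12, 0), (14, 0), (13, 0), (20,
  0), (12, 10), (8, 0), (7, 0), (11, 1), (14, 0), (22, 1), (12, 9), (15, 9), (3, 0), (2, 0), (5,
  1), (7, 1), (8, 1), (10, 1), (9, 1), (14, 1), (13, 1), (12, 1), (17, 0), (15, 7), (8, 1), (11,
  1), (10, 1), (20, 0), (15, 12), (2, 1), (3, 1), (7, 1), (6, 1), (5, 1), (4, 1), (9, 1), (8, 1),
  (7, 1), (6, 1), (5, 1), (6, 1), (8, 1), (7, 1), (9, 1), (14, 1), (13, 1), (12, 1), (15, 1), (17,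
  0), (18, 0), (19, 0), (20, 0), (21, 0), (16, 9), (6, 1), (11, 1), (14, 9), (3, 1), (2, 1), (16,
  0), (18, 0), (22, 0), (21, 1), (19, 6), (0, 0), (4, 1), (6, 0), (7, 0), (11, 0), (16, 1), (20,
  1), (19, 1), (18, 1), (14, 8), (4, 0), (20, 13), (0, 1), (2, 0), (3, 0), (7, 1), (6, 1), (5, 0),
  (6, 0), (7, 0), (9, 0), (8, 0), (10, 0), (12, 0), (17, 1), (19, 0), (14, 9), (0, 0), (3, 1), (8,
  1), (7, 1), (6, 1), (5, 1), (18, 0), (17, 0), (16, 0), (15, 0), (14, 0), (13, 0), (12, 0), (11,
  0), (10, 0), (11, 1), (13, 1), (14, 1), (18, 0), (17, 0), (19, 0), (18, 0), (20, 0), (22, 1),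
  (21, 0), (8, 5), (13, 9), (0, 1), (2, 1), (1, 1), (4, 1), (3, 1), (7, 0), (6, 0), (10, 1), (9,
  1), (10, 0), (11, 1), (15, 0), (17, 0), (19, 1), (20, 0), (1, 11), (0, 0), (4, 1), (3, 1), (4,
  0), (10, 1), (9, 1), (8, 1), (7, 1), (6, 1), (8, 0), (7, 0), (12, 1), (11, 1), (10, 1), (9, 1),
  (8, 1), (17, 1), (22, 1), (21, 0), (1, 4), (2, 1), (6, 0), (5, 1), (4, 0), (7, 0), (6, 1), (8,
  0), (7, 1), (12, 1), (17, 1), (19, 1), (20, 0), (13, 12), (2, 0), (1, 0), (4, 1), (3, 1), (9,
  0), (8, 1), (7, 0), (9, 1), (8, 1), (11, 1), (10, 1), (12, 1), (11, 1), (15, 0), (19, 0), (21,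
  0), (20, 0), (9, 9), (0, 0), (7, 1), (6, 1), (5, 1), (8, 1), (9, 1), (10, 1), (13, 1), (12, 1),
  (17, 0), (16, 0), (20, 1), (19, 1), (21, 1), (14, 7), (13, 1), (11, 7), (17, 0), (8, 8), (12,
  1), (15, 0), (17, 1), (13, 5), (0, 1), (3, 0), (5, 0), (16, 1), (15, 0), (13, 2), (8, 9), (0,
  0), (5, 1), (7, 1), (10, 0), (8, 2), (5, 0), (4, 0), (9, 1), (8, 1), (7, 1), (5, 6), (4, 1), (2,
  3), (1, 4), (1, 2)]

theorem run_moves : run moves front = some lens := by decide +kernel

theorem isFront_front : IsFront front := by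
  unfold IsFront
  decide

theorem maxTbUnknot_front : MaxTbUnknot front :=
  ⟨isFront_front, run_sound moves front lens isFront_front run_moves⟩

/-! ### Hardness -/

/-- The pairs of consecutive passages. -/
def cyc (D : List Pass) : List (Pass × Pass) := D.zip (D.rotate 1)

theorem cyc_rotate (D : List Pass) (k : ℕ) : cyc (D.rotate k) = (cyc D).rotate k := by
  unfold cyc
  rw [List.rotate_rotate, Nat.add_comm, ← List.rotate_rotate]
  exact (List.zipWith_rotate_distrib Prod.mk D (D.rotate 1) k (by simp)).symm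

theorem cyc_cons (p q : Pass) (B : List Pass) : (p, q) ∈ cyc (p :: q :: B) := by
  unfold cyc
  simp

theorem cyc_append (A B : List Pass) (p q : Pass) : (p, q) ∈ cyc (A ++ [p, q] ++ B) := by
  have h : (A ++ [p, q] ++ B).rotate A.length = p :: q :: (B ++ A) := by
    rw [List.append_assoc, List.rotate_append_length_eq]
    rfl
  have h1 := cyc_cons p q (B ++ A)
  rw [← h, cyc_rotate, List.mem_rotate] at h1
  exact h1

theorem cyc_map (f : ℕ → ℕ) (D : List Pass) :
    cyc (D.map (Pass.rename f)) = (cyc D).map (Prod.map (Pass.rename f) (Pass.rename f)) := by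
  unfold cyc
  rw [← List.map_rotate, List.zip_map]

theorem cyc_same {D E : List Pass} {f : ℕ → ℕ} (h : D.map (Pass.rename f) ~r E) {x : Pass × Pass}
    (hx : x ∈ cyc E) : ∃ y ∈ cyc D, x = (y.1.rename f, y.2.rename f) := by
  obtain ⟨k, rfl⟩ := h
  rw [cyc_rotate, List.mem_rotate, cyc_map, List.mem_map] at hx
  obtain ⟨y, hy, rfl⟩ := hx
  exact ⟨y, hy, rfl⟩

theorem cyc_mem {D : List Pass} {y : Pass × Pass} (hy : y ∈ cyc D) : y.1 ∈ D ∧ y.2 ∈ D := by
  obtain ⟨a, b⟩ := y
  have h := List.of_mem_zip hy
  exact ⟨h.1, by simpa using h.2⟩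

/-- no two consecutive passages belong to the same crossing -/
def NoOne (D : List Pass) : Prop := ∀ y ∈ cyc D, y.2 ≠ y.1.mate

/-- no moves of type II -/
def NoTwo (D : List Pass) : Prop := ∀ y ∈ cyc D, y.1.isOver = y.2.isOver →
  (y.1.mate, y.2.mate) ∉ cyc D ∧ (y.2.mate, y.1.mate) ∉ cyc D

/-- consecutive passages, in any order -/
def both (D : List Pass) : List (Pass × Pass) := cyc D ++ (cyc D).map Prod.swap

/-- no moves of type III -/
def NoThree (D : List Pass) : Prop := ∀ y ∈ both D, y.1.isOver = true ∧ y.2.isOver = true →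
  ∀ z ∈ both D, z.1 = y.1.mate ∧ z.2.isOver = true → (y.2.mate, z.2.mate) ∉ both D

theorem noOne : NoOne diagram := by unfold NoOne; decide +kernel

theorem noTwo : NoTwo diagram := by unfold NoTwo; decide +kernel

theorem noThree : NoThree diagram := by unfold NoThree; decide +kernel

section
variable {f : ℕ → ℕ} {D : List Pass}
  (hf : ∀ p ∈ D, ∀ q ∈ D, f p.crossing = f q.crossing → p.crossing = q.crossing)
include hf

theorem eq_of_rename {a b : Pass} (ha : a ∈ D) (hb : b ∈ D) (h : a.rename f = b.rename f) :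
    a = b := by
  have h1 := congrArg Pass.crossing h
  have h2 := congrArg Pass.isOver h
  have h3 := congrArg Pass.isPos h
  have h4 := hf a ha b hb h1
  cases a
  cases b
  simp only [Pass.rename] at h2 h3 h4
  subst h2 h3 h4
  rfl

theorem mate_of_rename {a b : Pass} (ha : a ∈ D) (hb : b ∈ D)
    (h : b.rename f = (a.rename f).mate) : b = a.mate := by
  have h1 := congrArg Pass.crossing h
  have h2 := congrArg Pass.isOver h
  have h3 := congrArg Pass.isPos h
  have h4 := hf b hb a ha h1
  cases a
  cases b
  simp only [Pass.rename, Pass.mate] at h2 h3 h4 ⊢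
  subst h2 h3 h4
  rfl

end

theorem both_same {D E : List Pass} {f : ℕ → ℕ} (h : D.map (Pass.rename f) ~r E) {p q : Pass}
    (hx : (p, q) ∈ cyc E ∨ (q, p) ∈ cyc E) :
    ∃ a b, (a, b) ∈ both D ∧ a ∈ D ∧ b ∈ D ∧ p = a.rename f ∧ q = b.rename f := by
  rcases hx with hx | hx
  · obtain ⟨y, hy, h1⟩ := cyc_same h hx
    obtain ⟨h2, h3⟩ := Prod.mk.inj h1
    exact ⟨y.1, y.2, List.mem_append_left _ hy, (cyc_mem hy).1, (cyc_mem hy).2, h2, h3⟩
  · obtain ⟨y, hy, h1⟩ := cyc_same h hx
    obtain ⟨h2, h3⟩ := Prod.mk.inj h1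
    refine ⟨y.2, y.1, List.mem_append_right _ ?_, (cyc_mem hy).2, (cyc_mem hy).1, h3, h2⟩
    exact List.mem_map.2 ⟨y, hy, rfl⟩

/-- there is no triangle -/
theorem no_triangle {D E : List Pass} (hD : NoThree D) {f : ℕ → ℕ}
    (hf : ∀ p ∈ D, ∀ q ∈ D, f p.crossing = f q.crossing → p.crossing = q.crossing)
    (h : D.map (Pass.rename f) ~r E) {t m b : Pass × Pass} (hT : Triangle t m b)
    (ht : t ∈ cyc E ∨ t.swap ∈ cyc E) (hm : m ∈ cyc E ∨ m.swap ∈ cyc E)
    (hb : b ∈ cyc E ∨ b.swap ∈ cyc E) : False := by
  obtain ⟨x, y, z, hx, hy, hz, t, m, b, ht', hm', hb'⟩ := hT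
  have h1 : (x, y) ∈ cyc E ∨ (y, x) ∈ cyc E := by
    rcases ht' with rfl | rfl
    · exact ht
    · exact ht.symm
  have h2 : (x.mate, z) ∈ cyc E ∨ (z, x.mate) ∈ cyc E := by
    rcases hm' with rfl | rfl
    · exact hm
    · exact hm.symm
  have h3 : (y.mate, z.mate) ∈ cyc E ∨ (z.mate, y.mate) ∈ cyc E := by
    rcases hb' with rfl | rfl
    · exact hb
    · exact hb.symm
  obtain ⟨a, b, hab, ha, hb, rfl, rfl⟩ := both_same h h1
  obtain ⟨c, d, hcd, hc, hd, h4, rfl⟩ := both_same h h2
  obtain ⟨u, v, huv, hu, hv, h5, h6⟩ := both_same h h3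
  have h7 : c = a.mate := mate_of_rename hf ha hc h4.symm
  have h8 : u = b.mate := mate_of_rename hf hb hu h5.symm
  have h9 : v = d.mate := mate_of_rename hf hd hv h6.symm
  subst h7 h8 h9
  exact hD (a, b) hab ⟨hx, hy⟩ (a.mate, d) hcd ⟨rfl, hz⟩ huv

/-- The first move creates crossings. -/
theorem length_lt {D : List Pass} (h1 : NoOne D) (h2 : NoTwo D) (h3 : NoThree D) {D' : List Pass}
    (h : RMove D D') : D.length < D'.length := by
  obtain ⟨E, E', ⟨f, hf, hE⟩, ⟨g, hg, hE'⟩, hR⟩ := h
  have l1 : D.length = E.length := by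
    rw [← List.IsRotated.perm hE |>.length_eq, List.length_map]
  have l2 : E'.length = D'.length := by
    rw [← List.IsRotated.perm hE' |>.length_eq, List.length_map]
  rw [l1, ← l2]
  rcases hR with hR | hR
  · exfalso
    cases hR with
    | one A B p =>
      obtain ⟨y, hy, h4⟩ := cyc_same hE (cyc_append A B p p.mate)
      obtain ⟨h5, h6⟩ := Prod.mk.inj h4
      rw [h5] at h6
      exact h1 y hy (mate_of_rename hf (cyc_mem hy).1 (cyc_mem hy).2 h6.symm)
    | twoSame A B C p q ho =>
      have e1 : (p, q) ∈ cyc (A ++ [p, q] ++ B ++ [p.mate, q.mate] ++ C) := by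
        have := cyc_append A (B ++ [p.mate, q.mate] ++ C) p q
        simpa only [List.append_assoc] using this
      have e2 : (p.mate, q.mate) ∈ cyc (A ++ [p, q] ++ B ++ [p.mate, q.mate] ++ C) :=
        cyc_append (A ++ [p, q] ++ B) C p.mate q.mate
      obtain ⟨y, hy, h4⟩ := cyc_same hE e1
      obtain ⟨z, hz, h5⟩ := cyc_same hE e2
      obtain ⟨rfl, rfl⟩ := Prod.mk.inj h4
      obtain ⟨h6, h7⟩ := Prod.mk.inj h5
      have h8 := mate_of_rename hf (cyc_mem hy).1 (cyc_mem hz).1 h6.symm
      have h9 := mate_of_rename hf (cyc_mem hy).2 (cyc_mem hz).2 h7.symm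
      refine (h2 y hy ho).1 ?_
      rw [← h8, ← h9]
      exact hz
    | twoOpp A B C p q ho =>
      have e1 : (p, q) ∈ cyc (A ++ [p, q] ++ B ++ [q.mate, p.mate] ++ C) := by
        have := cyc_append A (B ++ [q.mate, p.mate] ++ C) p q
        simpa only [List.append_assoc] using this
      have e2 : (q.mate, p.mate) ∈ cyc (A ++ [p, q] ++ B ++ [q.mate, p.mate] ++ C) :=
        cyc_append (A ++ [p, q] ++ B) C q.mate p.mate
      obtain ⟨y, hy, h4⟩ := cyc_same hE e1
      obtain ⟨z, hz, h5⟩ := cyc_same hE e2
      obtain ⟨rfl, rfl⟩ := Prod.mk.inj h4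
      obtain ⟨h6, h7⟩ := Prod.mk.inj h5
      have h8 := mate_of_rename hf (cyc_mem hy).2 (cyc_mem hz).1 h6.symm
      have h9 := mate_of_rename hf (cyc_mem hy).1 (cyc_mem hz).2 h7.symm
      refine (h2 y hy ho).2 ?_
      rw [← h8, ← h9]
      exact hz
    | three A B C F X Y Z t m b hT hP =>
      have e1 : X ∈ cyc (A ++ [X.1, X.2] ++ B ++ [Y.1, Y.2] ++ C ++ [Z.1, Z.2] ++ F) := by
        have := cyc_append A (B ++ [Y.1, Y.2] ++ C ++ [Z.1, Z.2] ++ F) X.1 X.2
        simpa only [List.append_assoc] using this
      have e2 : Y ∈ cyc (A ++ [X.1, X.2] ++ B ++ [Y.1, Y.2] ++ C ++ [Z.1, Z.2] ++ F) := by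
        have := cyc_append (A ++ [X.1, X.2] ++ B) (C ++ [Z.1, Z.2] ++ F) Y.1 Y.2
        simpa only [List.append_assoc] using this
      have e3 : Z ∈ cyc (A ++ [X.1, X.2] ++ B ++ [Y.1, Y.2] ++ C ++ [Z.1, Z.2] ++ F) :=
        cyc_append (A ++ [X.1, X.2] ++ B ++ [Y.1, Y.2] ++ C) F Z.1 Z.2
      have hall : ∀ W ∈ [X, Y, Z],
          W ∈ cyc (A ++ [X.1, X.2] ++ B ++ [Y.1, Y.2] ++ C ++ [Z.1, Z.2] ++ F) := by
        intro W hW
        simp only [List.mem_cons, List.not_mem_nil, or_false] at hW
        rcases hW with rfl | rfl | rfl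
        · exact e1
        · exact e2
        · exact e3
      exact no_triangle h3 hf hE hT (Or.inl (hall t (hP.mem_iff.2 (by simp))))
        (Or.inl (hall m (hP.mem_iff.2 (by simp)))) (Or.inl (hall b (hP.mem_iff.2 (by simp))))
  · cases hR with
    | one A B p => simp
    | twoSame A B C p q ho =>
      simp only [List.length_append, List.length_cons, List.length_nil]
      omega
    | twoOpp A B C p q ho =>
      simp only [List.length_append, List.length_cons, List.length_nil]
      omega
    | three A B C F X Y Z t m b hT hP =>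
      exfalso
      have e1 : X.swap ∈ cyc (A ++ [X.2, X.1] ++ B ++ [Y.2, Y.1] ++ C ++ [Z.2, Z.1] ++ F) := by
        have : X.swap ∈ _ := cyc_append A (B ++ [Y.2, Y.1] ++ C ++ [Z.2, Z.1] ++ F) X.2 X.1
        simpa only [List.append_assoc] using this
      have e2 : Y.swap ∈ cyc (A ++ [X.2, X.1] ++ B ++ [Y.2, Y.1] ++ C ++ [Z.2, Z.1] ++ F) := by
        have : Y.swap ∈ _ := cyc_append (A ++ [X.2, X.1] ++ B) (C ++ [Z.2, Z.1] ++ F) Y.2 Y.1
        simpa only [List.append_assoc] using this
      have e3 : Z.swap ∈ cyc (A ++ [X.2, X.1] ++ B ++ [Y.2, Y.1] ++ C ++ [Z.2, Z.1] ++ F) :=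
        cyc_append (A ++ [X.2, X.1] ++ B ++ [Y.2, Y.1] ++ C) F Z.2 Z.1
      have hall : ∀ W ∈ [X, Y, Z],
          W.swap ∈ cyc (A ++ [X.2, X.1] ++ B ++ [Y.2, Y.1] ++ C ++ [Z.2, Z.1] ++ F) := by
        intro W hW
        simp only [List.mem_cons, List.not_mem_nil, or_false] at hW
        rcases hW with rfl | rfl | rfl
        · exact e1
        · exact e2
        · exact e3
      exact no_triangle h3 hf hE hT (Or.inr (hall t (hP.mem_iff.2 (by simp))))
        (Or.inr (hall m (hP.mem_iff.2 (by simp)))) (Or.inr (hall b (hP.mem_iff.2 (by simp))))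

theorem stronglyHard_diagram : StronglyHard diagram := by
  intro n s h0 hs hn
  have hpos : 0 < n := by
    rcases Nat.eq_zero_or_pos n with rfl | h
    · rw [h0] at hn
      exact absurd hn (by decide)
    · exact h
  refine ⟨1, hpos, ?_⟩
  have := hs 0 hpos
  rw [h0] at this
  exact length_lt noOne noTwo noThree this

/-! ### Primality -/

theorem prime_aux : ∀ k < 24, ∀ l < 24, 0 < l →
    ∃ p ∈ (diagram.rotate k).take l, p.mate ∉ (diagram.rotate k).take l := by
  decide +kernel

theorem prime_diagram : ¬ Composite diagram := by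
  rintro ⟨x, y, ⟨k, hk⟩, hx, hy, h⟩
  have hlen : diagram.length = 24 := rfl
  have h1 : diagram.rotate (k % 24) = x ++ y := by
    rw [← hk, ← hlen, List.rotate_mod]
  have h2 : x.length + y.length = 24 := by
    rw [← List.length_append, ← h1, List.length_rotate, hlen]
  have hx' := List.length_pos_iff.2 hx
  have hy' := List.length_pos_iff.2 hy
  obtain ⟨p, hp, hp'⟩ := prime_aux (k % 24) (Nat.mod_lt _ (by norm_num)) x.length (by omega) hx'
  have h3 : (diagram.rotate (k % 24)).take x.length = x := by
    rw [h1, List.take_left]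
  rw [h3] at hp hp'
  exact hp' (h p hp)

/-- There is a front of the max-tb Legendrian unknot whose smooth resolution is prime and strongly
hard on the sphere. -/
theorem result : ∃ F : List Event, MaxTbUnknot F ∧ ¬ Composite (resolution F) ∧
    StronglyHard (resolution F) := by
  refine ⟨front, maxTbUnknot_front, ?_, ?_⟩
  · rw [resolution_front]
    exact prime_diagram
  · rw [resolution_front]
    exact stronglyHard_diagram

end Pool.Agent.Results.MP_0e30b3_gt.PrimeHardFront
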